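import Pool.Agent.helper67.RG.Spec

/-!
# Project rg (MP_2e0e07_nt), row PKV: assembly of LIE, CNJ, STB, KER, NSC
-/

set_option autoImplicit false

namespace Pool.Agent.RG.PKV

open Matrix Polynomial Pool.Agent.GO Pool.Agent.AR

universe u v w

/-- Row PKV (hypotheses: LIE, CNJ, STB, KER, NSC) -/
theorem PKV (hLIE : LIE_stmt.{u, v, w, 0}) (hCNJ : CNJ_stmt.{u, v, w, 0})
    (hSTB : STB_stmt.{u, v, w, 0}) (hKER : KER_stmt.{u, v, w})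
    (hNSC : NSC_stmt.{u, v, w}) : PKV_stmt.{u, v, w} := by
  intro F Γ m _ _ _ _ _ _ V ρ hal g α β hch hpow
  obtain ⟨L, hL, hlie⟩ := hLIE V ρ
  refine ⟨L, ?_, fun p hp => (hL p).1 hp, fun p hp => hSTB V ρ p ((hL p).1 hp)⟩
  refine ⟨hlie, fun g p hp => (hL _).2 (hCNJ V ρ g p ((hL p).1 hp)),
    fun p hp h0 => hKER V ρ hal p ((hL p).1 hp) h0, ?_⟩
  obtain ⟨p, hp, hs⟩ := hNSC V ρ g α β hch hpow
  exact ⟨p, (hL p).2 hp, hs⟩

end Pool.Agent.RG.PKV
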